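import Pool.Agent.Y221.CF.Abu
import Pool.Agent.TH466.QG.Top
import Pool.Agent.N194.VS.All

/-!
# Viehweg's inequality for the images of bounded degree of systems of few high powers

`HighPowers s N F`: the forms `F` are sums of at most `s` powers of linear forms, all with exponents at
least `N` (for each form one exponent), or forms with at most `s` monomials with exponents divisible
by a number at least `N`. Let `V` be a closed subvariety of `{F = 0}` of dimension `w ≥ 1`, with generic
point `y` and function field `K`. The theorem is about **all** fibrations `X ⇢ Y` of **all** the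
varieties `X` which are dominated by `V` with degree at most `r`, or which are in a correspondence with
`V` of degree at most `r` over `X`; nothing is assumed about the maps, the branch loci, `Y`, or the
fibres.

The function-field language of the library is used: `KappaGe k L n h` says that `κ ≥ h` for the
projective manifolds of dimension `n` over `k` with function field `L`, `IsPseudoEffective k L n` that
their canonical bundle is pseudo-effective, `GeneralType k L n` that they are of general type,
`Ruled k K` that `V` is birational to the product of a variety and the projective line, `RatCurve F y`: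
some polynomial curve over `K` in `{F = 0}` passes through `y`. `Subadditive`: the inequality for all
fibrations (`Pool/Agent/N194/VS/Key.lean`).
-/

set_option autoImplicit false
set_option linter.overlappingInstances false

open Pool.Agent.W602.GT Pool.Agent.N194.VS
open Pool.Agent.W619.PQ (IsUniruled)
open Pool.Agent.TH466.QG (RatCurve)

namespace Pool.Agent.Results.MP_5c318e_ag.HighPowerImages

/-- Let `N ≥ 1`, `N ≥ r w (s + 4) (s - 1) (s - 2) / 2`, and let `V` be a closed subvariety of dimension
`w ≥ 1` of `{F = 0}`. Let `X` be a variety with function field `L`, and `X ⇢ Y` any dominant rational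
map with `κ(Y) ≥ 0` and generic fibre `F`. In the following cases `κ(X) ≥ κ(F) + dim Y`, and `X` and
`F` are of general type if `K_F` is pseudo-effective:
(1) `V` is an irreducible component of `{F = 0}`, and `X` is dominated by `V` with degree at most `r`;
(2) `V` is an irreducible component which is not ruled, or no rational curve in `{F = 0}` passes through
the generic point of `V`, and there are dominant rational maps `V' ⇢ V` of any finite degree and
`V' ⇢ X` of degree at most `r`. -/
theorem result {n : ℕ} {ι : Type} {F : ι → MvPolynomial (Fin (n + 1)) ℂ} {s N w r : ℕ}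
    (hF : HighPowers s N F) (hN1 : 1 ≤ N) (hw : 1 ≤ w)
    (hN : r * (w * ((s + 4) * ((s - 1) * (s - 2) / 2))) ≤ N) {K : Type} [Field K] [Algebra ℂ K]
    {y : Fin (n + 1) → K} (hy : SubVar F K w y) :
    (IsComponent F y → ∀ (L : Type) [Field L] [Algebra ℂ L] [Algebra L K] [IsScalarTower ℂ L K]
      [FiniteDimensional L K], Module.finrank L K ≤ r → Subadditive L w) ∧
    ((IsComponent F y ∧ ¬ Ruled ℂ K ∨ ¬ RatCurve F y) → ∀ (K' L : Type) [Field K'] [Field L]
      [Algebra ℂ K'] [Algebra ℂ L] [Algebra K K'] [Algebra L K'] [IsScalarTower ℂ K K']
      [IsScalarTower ℂ L K'] [FiniteDimensional K K'] [FiniteDimensional L K'],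
      Module.finrank L K' ≤ r → Subadditive L w) := by
  have hessK : Algebra.EssFiniteType ℂ K := Pool.Agent.TH466.QG.SubVar.ess hy
  refine ⟨fun hcomp L _ _ _ _ _ hr => ?_, fun h K' L _ _ _ _ _ _ _ _ _ _ hr => ?_⟩
  · obtain ⟨h1, -⟩ := Pool.Agent.Y221.CF.abu_comp hF hN1 hw hN hy hcomp hr
    have hess : Algebra.EssFiniteType ℂ L := Pool.Agent.TH466.QG.ess_below (K := K)
    have h2 : GeneralType ℂ L w ↔ ¬ IsUniruled ℂ L w := h1.out 2 3
    exact viehweg_all (Pool.Agent.Y184.NT.trdeg_below (K := K) hy.dim) (by tauto)
  · have h1 : GeneralType ℂ L w := by
      rcases h with ⟨hcomp, hR⟩ | hc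
      · exact (Pool.Agent.Y221.CF.abu_corr (K := K) (K' := K') hF hN1 hw hN hy hcomp hR hr).1
      · exact (Pool.Agent.Y221.CF.abu_curve (K := K) (K' := K') hF hN1 hw hN hy hc hr).1
    have hess2 : Algebra.EssFiniteType K K' := inferInstance
    have hess' : Algebra.EssFiniteType ℂ K' := Algebra.EssFiniteType.comp ℂ K K'
    have hess : Algebra.EssFiniteType ℂ L := Pool.Agent.TH466.QG.ess_below (K := K')
    exact viehweg_all h1.1 (Or.inl h1)

end Pool.Agent.Results.MP_5c318e_ag.HighPowerImages
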