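import Pool.Agent.Y192.KC.Dich
import Pool.Agent.TH466.QG.Top
import Pool.Agent.N194.VS.All

/-!
# Viehweg's inequality for covers `w j ^ e j = F j (t 0 ^ m, …, t n ^ m)` of arbitrary projective
varieties, `m` large

The theorem is about **all** fibrations `X ⇢ Y` of **all** varieties `X` which are birational to an
irreducible component of such a cover; nothing is assumed about `Y`, the fibres, or the singularities.

The function-field language of the library is used: `KappaGe k L n h` says that `κ ≥ h` for the
projective manifolds of dimension `n` over `k` with function field `L`, `IsPseudoEffective k L n` that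
their canonical bundle is pseudo-effective, `GeneralType k L n` that they are of general type.
`Subadditive`: the inequality for all fibrations (`Pool/Agent/N194/VS/Key.lean`).
-/

set_option autoImplicit false
set_option linter.overlappingInstances false

namespace Pool.Agent.Results.MP_5c318e_ag.KummerCovers

open Pool.Agent.W602.GT Pool.Agent.Y192.KC Pool.Agent.N194.VS
open Pool.Agent.W619.PQ (IsUniruled)

/-- Let `Z` be any irreducible projective variety in `P^n`, not in a coordinate hyperplane, with the
homogeneous prime ideal `I`, let `F 1, …, F r` be forms which do not vanish on `Z`, and let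
`e 1, …, e r` be positive numbers (there is no condition on the singularities of `Z` and of the
divisors `F j = 0`). There is a number `m0` with the following property. Let `m ≥ m0` be divisible by
the `e j`, and let `X` be birational to an irreducible component, of dimension `d > 0`, of the
projective variety with the equations `f (t 0 ^ m, …, t n ^ m) = 0`, `f ∈ I`, and
`w j ^ e j = F j (t 0 ^ m, …, t n ^ m)` in the weighted projective space with the homogeneous
coordinates `t i` and `w j`; `L` is the function field of `X`, and `t`, `w` are the coordinates of the
generic point. Let `X ⇢ Y` be any dominant rational map with `κ(Y) ≥ 0` and generic fibre `F`. Then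
`κ(X) ≥ κ(F) + dim Y`, and `X` and `F` are of general type if `K_F` is pseudo-effective. -/
theorem result {n r : ℕ} (X : ZCov n r) (hG : X.G = 1) :
    ∃ m0 : ℕ, ∀ m, m0 ≤ m → (∀ j, X.e j ∣ m) →
      ∀ (L : Type) [Field L] [Algebra ℂ L] (t : Fin (n + 1) → L) (w : Fin r → L),
      ZField X m L t w → ∀ d : ℕ, 1 ≤ d → Algebra.trdeg ℂ L = d → Subadditive L d := by
  obtain ⟨m0, hm0⟩ := dich_all X hG
  refine ⟨m0, fun m hm he L _ _ t w hF d hd htr => ?_⟩
  have h := hm0 m hm he L t w hF d hd htr
  have hess : Algebra.EssFiniteType ℂ L := by
    rw [← IntermediateField.fg_top_iff, ← hF.gen]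
    exact IntermediateField.fg_adjoin_of_finite ((Set.finite_range _).union (Set.finite_range _))
  have h3 : Ruled ℂ L ↔ ¬ GeneralType ℂ L d := h.out 2 3
  have hdich : GeneralType ℂ L d ∨ IsUniruled ℂ L d := by
    by_cases hR : Ruled ℂ L
    · exact Or.inr (Pool.Agent.TH466.QG.neg_below (K := L) (L := L) htr hR).1
    · exact Or.inl (not_not.1 fun h2 => hR (h3.2 h2))
  exact viehweg_all htr hdich

end Pool.Agent.Results.MP_5c318e_ag.KummerCovers
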