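import Pool.Agent.TH710.ND.Proj
import Pool.Agent.TH710.ND.Sp
import Pool.Agent.TH466.QG.Top
import Pool.Agent.N194.VS.All

/-!
# Viehweg's inequality for the varieties given by nested sums of high powers

`HighTowers s N h F` (`Pool/Agent/TH710/ND`): the forms `F e` are all nested sums of high powers of
linear forms, or all nested sums of high powers of monomials. The theorem is about **all** fibrations
`X ⇢ Y` of **all** varieties `X` which are birational to an irreducible component of the projective
variety `{F = 0}`; nothing is assumed about `Y`, the fibres, or the singularities.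

The function-field language of the library is used: `KappaGe k L n h` says that `κ ≥ h` for the
projective manifolds of dimension `n` over `k` with function field `L`, `IsPseudoEffective k L n` that
their canonical bundle is pseudo-effective, `GeneralType k L n` that they are of general type.
`Subadditive`: the inequality for all fibrations (`Pool/Agent/N194/VS/Key.lean`).
-/

set_option autoImplicit false
set_option linter.overlappingInstances false

namespace Pool.Agent.Results.MP_5c318e_ag.NestedPowers

open FF MvPolynomial Pool.Agent.W602.GT Pool.Agent.N194.VS
open Pool.Agent.TH710.ND (HighTowers)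
open Pool.Agent.W619.PQ (IsUniruled)

/-- Let `X` be birational to an irreducible component, of dimension `w`, of a projective variety given
by forms which are nested sums of high powers of linear forms, or nested sums of high powers of
monomials: at each of at most `h + 1` levels there are at most `s` summands, and the exponents are at
least `(n + 1) (h + 1) (2 s + 1) ^ 5`. Let `X ⇢ Y` be any dominant rational map with `κ(Y) ≥ 0` and
generic fibre `F`. Then `κ(X) ≥ κ(F) + dim Y`, and `X` and `F` are of general type if `K_F` is
pseudo-effective. -/
theorem result {n : ℕ} {ι : Type} {F : ι → MvPolynomial (Fin (n + 1)) ℂ} {s N h : ℕ}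
    (hF : HighTowers s N h F) (hN : (n + 1) * ((h + 1) * (2 * s + 1) ^ 5) ≤ N)
    {K : Type} [Field K] [Algebra ℂ K] {w : ℕ} {y : Fin (n + 1) → K}
    (hy : SubVar F K w y) (hcomp : IsComponent F y) : Subadditive K w := by
  have h1 := Pool.Agent.TH710.ND.neg_tfae hF (Pool.Agent.TH710.ND.bnd_le hN).1 hy hcomp
  have hess : Algebra.EssFiniteType ℂ K := Pool.Agent.TH466.QG.SubVar.ess hy
  have e3 : Ruled ℂ K ↔ ¬ GeneralType ℂ K w := h1.out 2 3
  have hd : GeneralType ℂ K w ∨ IsUniruled ℂ K w := by
    by_cases hR : Ruled ℂ K
    · exact Or.inr (Pool.Agent.TH466.QG.neg_below (K := K) (L := K) hy.dim hR).1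
    · exact Or.inl (not_not.1 fun h2 => hR (e3.2 h2))
  exact viehweg_all hy.dim hd

end Pool.Agent.Results.MP_5c318e_ag.NestedPowers
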