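import Pool.Agent.N115.IM.Top
import Pool.Agent.N194.VS.All

/-!
# Viehweg's inequality for the images of bounded degree of polynomial value varieties

Let `a 0, ..., a N` be distinct complex numbers and `m ≥ 2`. Let `P ⊆ P^N` be the `n`-dimensional
complete intersection of the points `x` for which there is a polynomial `H` of degree at most `n` such
that `x i ^ m = H (a i)` for all `i`, and let `Z` be a closed subvariety of `P`, of any dimension
`w ≥ 1`. The theorem is about **all** fibrations `X ⇢ Y` of **all** the varieties `X` which are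
dominated by `Z` with degree at most `r`; nothing is assumed about the map `Z ⇢ X`, its branch locus,
`Y`, or the fibres.

The function-field language of the library is used: `KappaGe k L n h` says that `κ ≥ h` for the
projective manifolds of dimension `n` over `k` with function field `L`, `IsPseudoEffective k L n` that
their canonical bundle is pseudo-effective, `GeneralType k L n` that they are of general type,
`Ruled k K` that `Z` is birational to the product of a variety and the projective line. `Subadditive`:
the inequality for all fibrations (`Pool/Agent/N194/VS/Key.lean`). `coords k y` is the field of the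
ratios of the homogeneous coordinates `y`.

Proof: by `Pool/Agent/N115/IM` (helper115) the varieties `X` are uniruled or of general type. If `X` is
uniruled and `κ(Y) ≥ 0` then the pluricanonical forms of `Y` are constant along the rational curves, so
`K_F` is not pseudo-effective (`Pool/Agent/R882/UA.lean`, `UB.lean`). If `X` is of general type then
`κ(X) = dim X`.
-/

set_option autoImplicit false

open Pool.Agent.W602.GT Pool.Agent.N194.VS
open Pool.Agent.W619.PQ (IsUniruled)

namespace Pool.Agent.Results.MP_5c318e_ag.PolynomialValueImages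

/-- `K` is the function field, and `y` the generic point in homogeneous coordinates, of a closed
subvariety `Z` of dimension `w` of the variety `P ⊆ P^N` of the points `x` for which there is a
polynomial of degree at most `n` whose values at the `a i` are the `x i ^ m`; the polynomial of the
generic point is `H`. -/
structure Subvariety {N : ℕ} (a : Fin (N + 1) → ℂ) (n m w : ℕ) (K : Type) [Field K] [Algebra ℂ K]
    (y : Fin (N + 1) → K) (H : Polynomial K) : Prop where
  ne : y ≠ 0
  gen : coords ℂ y = ⊤
  dim : Algebra.trdeg ℂ K = w
  deg : H.natDegree ≤ n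
  val : ∀ i, y i ^ m = H.eval (algebraMap ℂ K (a i))

/-- Let `m ≥ 2`, `r ≥ 1`, `4 n + (n + 2 r - 1) ^ 2 < 2 (N + 1)`, and let `Z` be a closed subvariety of
dimension `w ≥ 1` of `P`, with generic polynomial `H`, which is not divisible by the `m`-th power of a
polynomial of degree at least `2` (this holds if `n < 2 m`, and if the codimension of `Z` in `P` is
less than `2 (m - 1)`). Let `X` be any variety which is dominated by `Z` with degree at most `r`, or,
if `Z` is not ruled (for example `Z = P`), any variety with dominant rational maps `Z' ⇢ Z` of any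
finite degree and `Z' ⇢ X` of degree at most `r`; `L` is its function field. Let `X ⇢ Y` be any
dominant rational map with `κ(Y) ≥ 0` and generic fibre `F`. Then `κ(X) ≥ κ(F) + dim Y`; if `K_F` is
pseudo-effective then `X` and `F` are of general type. -/
theorem result {N n m r : ℕ} (hm : 2 ≤ m) (hr : 1 ≤ r)
    (hN : 4 * n + (n + 2 * r - 1) ^ 2 < 2 * (N + 1)) (a : Fin (N + 1) → ℂ)
    (ha : Function.Injective a) {K : Type} [Field K] [Algebra ℂ K] {w : ℕ} (hw : 1 ≤ w)
    {y : Fin (N + 1) → K} {H : Polynomial K} (hZ : Subvariety a n m w K y H) :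
    ((∀ q : Polynomial K, 2 ≤ q.natDegree → ¬ q ^ m ∣ H) →
      (∀ (L : Type) [Field L] [Algebra ℂ L] [Algebra L K] [IsScalarTower ℂ L K]
        [FiniteDimensional L K], Module.finrank L K ≤ r → Subadditive L w) ∧
      (¬ Ruled ℂ K → ∀ (K' L : Type) [Field K'] [Field L] [Algebra ℂ K'] [Algebra ℂ L]
        [Algebra K K'] [Algebra L K'] [IsScalarTower ℂ K K'] [IsScalarTower ℂ L K']
        [FiniteDimensional K K'] [FiniteDimensional L K'], Module.finrank L K' ≤ r →
        Subadditive L w)) ∧
    (n < 2 * m ∨ n < w + 2 * (m - 1) → ∀ q : Polynomial K, 2 ≤ q.natDegree → ¬ q ^ m ∣ H) ∧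
    (n < w + (m - 1) → ¬ Ruled ℂ K) := by
  have hessK : Algebra.EssFiniteType ℂ K := essFinite hZ.gen
  refine ⟨fun hfac => ⟨fun L _ _ _ _ _ hfr => ?_, fun hnr K' L _ _ _ _ _ _ _ _ _ _ hfr => ?_⟩,
    fun h q hq => ?_, fun h => ?_⟩
  · have h1 := Pool.Agent.N115.IM.below_tfae hm hr hw hN ha hZ.dim hZ.ne hZ.gen hZ.deg hZ.val hfac
      hfr
    have hess : Algebra.EssFiniteType ℂ L := Pool.Agent.TH466.QG.ess_below (K := K)
    have h2 : IsUniruled ℂ L w ↔ ¬ GeneralType ℂ L w := h1.out 2 3
    exact viehweg_all (Pool.Agent.Y184.NT.trdeg_below (K := K) hZ.dim) (by tauto)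
  · have h1 := Pool.Agent.N115.IM.corr_general hm hr hw hN ha hZ.dim hZ.ne hZ.gen hZ.deg hZ.val
      hfac hnr hfr
    have hess2 : Algebra.EssFiniteType K K' := inferInstance
    have hess' : Algebra.EssFiniteType ℂ K' := Algebra.EssFiniteType.comp ℂ K K'
    have hess : Algebra.EssFiniteType ℂ L := Pool.Agent.TH466.QG.ess_below (K := K')
    exact viehweg_all h1.1 (Or.inl h1)
  · exact Pool.Agent.N115.IM.no_factor hm hZ.dim hZ.ne hZ.gen hZ.deg hZ.val (d := 2)
      (h.imp (fun h => by omega) fun h => by omega) q hq
  · refine Pool.Agent.N115.IM.not_ruled hm hw ?_ ha hZ.dim hZ.ne hZ.gen hZ.deg hZ.val (Or.inr h)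
    have h1 : n + 1 ≤ n + 2 * r - 1 := by omega
    have h2 : (n + 1) ^ 2 ≤ (n + 2 * r - 1) ^ 2 := Nat.pow_le_pow_left h1 2
    omega

end Pool.Agent.Results.MP_5c318e_ag.PolynomialValueImages
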